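import Pool.Agent.Helper53.WR.St.Stubs2

/-!
# WR-E3: the union of all worlds
-/

set_option autoImplicit false

namespace Pool.Agent.Helper30.WR

open Finset Filter
open Pool.Agent.Helper53.WR

/-- The conclusions of `world_k`. -/
structure WC (M G : ℕ) (f : ℕ → ℕ) (q : ℕ → ℕ) (T : Finset ℕ) (k : ℕ) (O A : Finset ℕ) : Prop where
  rng : ∀ b ∈ A, 2 ^ (4 * k ^ M + thP M G k) ≤ b ∧
    b < 2 ^ (4 * (k + 1) ^ M + 8 * uP M (k + 1))
  self : ∀ n, repF A n ≤ 4096 ^ 2 * 2592 * f k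
  cov : ∀ j, 4 * k ^ M + thP M G k + 8 ≤ j → j + 1 ≤ 4 * k ^ M + laP M k →
        (∀ i, i ≤ 5 → CovBlock (T : Set ℕ) (j - 4 * k ^ M - i)) → CovBlock (A : Set ℕ) j
  res2 : ∀ i, k < i → i ^ M ≤ 3 * k ^ M → ∀ r,
        (A.filter (fun b => b % (q i) ^ 2 = r)).card ≤ 4096 * 2 ^ (4 * uP M i + 4 * i ^ G)
  res4 : ∀ i, k < i → i ^ M ≤ 3 * k ^ M → ∀ r,
        (A.filter (fun b => b % (q i) ^ 4 = r)).card ≤ 4096 * (8 * k)
  cross : ∀ n, ((A ×ˢ O).filter (fun z => z.1 + z.2 = n)).card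
        ≤ 4096 * (k ^ (M - G) * (2 ^ 15 * k ^ 2 + 1))

/-- The invariant of the recursion. -/
structure Inv (M G : ℕ) (q : ℕ → ℕ) (k : ℕ) (O : Finset ℕ) : Prop where
  bd : ∀ o ∈ O, o < 2 ^ (4 * k ^ M + 8 * uP M k)
  c2 : ∀ i, k ≤ i → ∀ r, (O.filter (fun o => o % (q i) ^ 2 = r)).card
      ≤ 1 + k * (4096 * 2 ^ (4 * uP M i + 4 * i ^ G))
  c4 : ∀ i, k ≤ i → ∀ r, (O.filter (fun o => o % (q i) ^ 4 = r)).card
      ≤ 1 + k * (4096 * (8 * k))

lemma inv_empty (M G : ℕ) (q : ℕ → ℕ) (k : ℕ) : Inv M G q k ∅ :=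
  ⟨by simp, by simp, by simp⟩

lemma card_class_le_one (O : Finset ℕ) (Q : ℕ) (h : ∀ o ∈ O, o < Q) (r : ℕ) :
    (O.filter (fun o => o % Q = r)).card ≤ 1 := by
  rw [Finset.card_le_one]
  intro a ha b hb
  rw [mem_filter] at ha hb
  have h1 := Nat.mod_eq_of_lt (h a ha.1)
  have h2 := Nat.mod_eq_of_lt (h b hb.1)
  omega

lemma inv_step {M G : ℕ} {f : ℕ → ℕ} {q : ℕ → ℕ} {T : Finset ℕ} {k : ℕ} {O A : Finset ℕ}
    (hN : Num M G f k) (hq : ∀ i, (q i).Prime ∧ 2 ^ (i ^ M) < q i ∧ q i ≤ 2 ^ (i ^ M + 1))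
    (hI : Inv M G q k O) (hA : WC M G f q T k O A) : Inv M G q (k + 1) (O ∪ A) := by
  have L := hN.lin
  have hmono : k ^ M ≤ (k + 1) ^ M := Nat.pow_le_pow_left (Nat.le_succ k) M
  have hbd : ∀ o ∈ O ∪ A, o < 2 ^ (4 * (k + 1) ^ M + 8 * uP M (k + 1)) := by
    intro o ho
    rcases mem_union.mp ho with h | h
    · refine lt_of_lt_of_le (hI.bd o h) (Nat.pow_le_pow_right (by norm_num) ?_)
      have := L.uu'
      omega
    · exact (hA.rng o h).2
  have hexp : 4 * (k + 1) ^ M + 8 * uP M (k + 1) ≤ 6 * k ^ M := by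
    have h1 := L.du
    have h2 := L.uu
    have h3 := L.ua
    omega
  have hbig : ∀ i, ¬ i ^ M ≤ 3 * k ^ M → ∀ o ∈ O ∪ A, o < (q i) ^ 2 := by
    intro i hi o ho
    have h1 := hbd o ho
    have h2 : (2 : ℕ) ^ (4 * (k + 1) ^ M + 8 * uP M (k + 1)) ≤ 2 ^ (2 * i ^ M) :=
      Nat.pow_le_pow_right (by norm_num) (by omega)
    have h3 : (2 : ℕ) ^ (2 * i ^ M) ≤ (q i) ^ 2 := by
      rw [mul_comm, pow_mul]
      exact Nat.pow_le_pow_left (hq i).2.1.le 2
    omega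
  have hle24 : ∀ i, (q i) ^ 2 ≤ (q i) ^ 4 := fun i =>
    Nat.pow_le_pow_right (hq i).1.pos (by norm_num)
  refine ⟨hbd, ?_, ?_⟩
  · intro i hi r
    by_cases hc : i ^ M ≤ 3 * k ^ M
    · rw [filter_union]
      have h1 := hI.c2 i (by omega) r
      have h2 := hA.res2 i (by omega) hc r
      have h3 := card_union_le (O.filter (fun o => o % (q i) ^ 2 = r))
        (A.filter (fun o => o % (q i) ^ 2 = r))
      have e : 1 + (k + 1) * (4096 * 2 ^ (4 * uP M i + 4 * i ^ G))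
        = 1 + k * (4096 * 2 ^ (4 * uP M i + 4 * i ^ G)) +
          4096 * 2 ^ (4 * uP M i + 4 * i ^ G) := by ring
      rw [e]
      omega
    · have h1 := card_class_le_one (O ∪ A) ((q i) ^ 2) (hbig i hc) r
      exact h1.trans (Nat.le_add_right _ _)
  · intro i hi r
    by_cases hc : i ^ M ≤ 3 * k ^ M
    · rw [filter_union]
      have h1 := hI.c4 i (by omega) r
      have h2 := hA.res4 i (by omega) hc r
      have h3 := card_union_le (O.filter (fun o => o % (q i) ^ 4 = r))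
        (A.filter (fun o => o % (q i) ^ 4 = r))
      have e : 1 + k * (4096 * (8 * k)) + 4096 * (8 * k) ≤
          1 + (k + 1) * (4096 * (8 * (k + 1))) := by nlinarith
      omega
    · have h1 := card_class_le_one (O ∪ A) ((q i) ^ 4)
        (fun o ho => lt_of_lt_of_le (hbig i hc o ho) (hle24 i)) r
      exact h1.trans (Nat.le_add_right _ _)

lemma exists_primes (M : ℕ) :
    ∃ q : ℕ → ℕ, ∀ i, (q i).Prime ∧ 2 ^ (i ^ M) < q i ∧ q i ≤ 2 ^ (i ^ M + 1) := by
  have h : ∀ i : ℕ, ∃ p : ℕ, p.Prime ∧ 2 ^ (i ^ M) < p ∧ p ≤ 2 ^ (i ^ M + 1) := by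
    intro i
    obtain ⟨p, hp, h1, h2⟩ := Nat.exists_prime_lt_and_le_two_mul (2 ^ (i ^ M)) (by positivity)
    refine ⟨p, hp, h1, ?_⟩
    rw [pow_succ]
    omega
  choose q hq using h
  exact ⟨q, hq⟩

lemma repset_finite (A : Set ℕ) (n : ℕ) :
    ({p : ℕ × ℕ | p.1 ∈ A ∧ p.2 ∈ A ∧ p.1 + p.2 = n} : Set (ℕ × ℕ)).Finite := by
  refine Set.Finite.subset ((range (n + 1) ×ˢ range (n + 1) : Finset (ℕ × ℕ)).finite_toSet) ?_
  rintro ⟨a, b⟩ ⟨_, _, h⟩
  simp only [coe_product, coe_range, Set.mem_prod, Set.mem_Iio]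
  simp only at h
  omega

lemma repF_le_rep (A : Finset ℕ) (T : Set ℕ) (h : ∀ a ∈ A, a ∈ T) (n : ℕ) :
    repF A n ≤ rep T n := by
  unfold repF rep
  rw [← Set.ncard_coe_finset]
  refine Set.ncard_le_ncard ?_ (repset_finite T n)
  intro p hp
  simp only [coe_filter, mem_product, Set.mem_setOf_eq] at hp
  exact ⟨h _ hp.1.1, h _ hp.1.2, hp.2⟩

lemma expo_mono (M G : ℕ) : Monotone (fun k : ℕ => 4 * k ^ M + thP M G k) := by
  intro a b hab
  have h1 : a ^ M ≤ b ^ M := Nat.pow_le_pow_left hab M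
  have h2 : a ^ (M - 1) ≤ b ^ (M - 1) := Nat.pow_le_pow_left hab _
  have h3 : a ^ G ≤ b ^ G := Nat.pow_le_pow_left hab G
  have h4 : M * a ^ (M - 1) ≤ M * b ^ (M - 1) := Nat.mul_le_mul_left _ h2
  simp only [thP, uP]
  omega

open Classical in
/-- WR-E3 (the union of all worlds; uses `world_k`). -/
theorem global_set {M G : ℕ} {f : ℕ → ℕ} {k0 : ℕ} (hN : ∀ k, k0 ≤ k → Num M G f k) (T : Set ℕ)
    (hT : ∀ k, k0 ≤ k → ∀ n, n < 2 ^ (laP M k + 1) → rep T n ≤ f k) :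
    ∃ A : Set ℕ, (∀ n, n < 2 ^ (4 * k0 ^ M + thP M G k0) → rep A n = 0) ∧
      (∀ k, k0 ≤ k → ∀ n, 2 ^ (4 * k ^ M + thP M G k) ≤ n →
        n < 2 ^ (4 * (k + 1) ^ M + thP M G (k + 1)) →
        rep A n ≤ 4096 ^ 2 * 2592 * f k + 2 * (4096 * (k ^ (M - G) * (2 ^ 15 * k ^ 2 + 1)))) ∧
      (∀ k, k0 ≤ k → ∀ j, 4 * k ^ M + thP M G k + 8 ≤ j → j + 1 ≤ 4 * k ^ M + laP M k →
        (∀ i, i ≤ 5 → CovBlock T (j - 4 * k ^ M - i)) → CovBlock A j) := by
  obtain ⟨q, hq⟩ := exists_primes M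
  let Tk : ℕ → Finset ℕ := fun k => (range (2 ^ laP M k)).filter (fun t => t ∈ T)
  have hTk1 : ∀ k, ∀ t ∈ Tk k, t < 2 ^ laP M k := by
    intro k t ht
    exact mem_range.mp (mem_filter.mp ht).1
  have hTk2 : ∀ k, ∀ t ∈ Tk k, t ∈ T := fun k t ht => (mem_filter.mp ht).2
  have hTk3 : ∀ k, k0 ≤ k → ∀ n, repF (Tk k) n ≤ f k := by
    intro k hk n
    by_cases hn : n < 2 ^ (laP M k + 1)
    · exact (repF_le_rep _ T (hTk2 k) n).trans (hT k hk n hn)
    · have : repF (Tk k) n = 0 := by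
        unfold repF
        rw [Finset.card_eq_zero, filter_eq_empty_iff]
        rintro ⟨a, b⟩ hab h
        rw [mem_product] at hab
        have h1 := hTk1 k _ hab.1
        have h2 := hTk1 k _ hab.2
        simp only at h h1 h2
        rw [pow_succ] at hn
        omega
      omega
  have hex : ∀ k, k0 ≤ k → ∀ O : Finset ℕ, Inv M G q k O → ∃ A, WC M G f q (Tk k) k O A := by
    intro k hk O hO
    obtain ⟨A, h1, h2, h3, h4, h5, h6⟩ := St.world_k (hN k hk) q hq (Tk k) O (hTk1 k)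
      (hTk3 k hk) hO.bd (hO.c2 k le_rfl) (hO.c4 k le_rfl)
    exact ⟨A, h1, h2, h3, h4, h5, h6⟩
  let W : ℕ → Finset ℕ → Finset ℕ := fun k O =>
    if h : k0 ≤ k ∧ Inv M G q k O then Classical.choose (hex k h.1 O h.2) else ∅
  have hW : ∀ k, k0 ≤ k → ∀ O : Finset ℕ, Inv M G q k O → WC M G f q (Tk k) k O (W k O) := by
    intro k hk O hO
    have : W k O = Classical.choose (hex k hk O hO) := by
      simp only [W]
      rw [dif_pos ⟨hk, hO⟩]
    rw [this]
    exact Classical.choose_spec (hex k hk O hO)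
  let S : ℕ → Finset ℕ := fun s => Nat.rec ∅ (fun s O => O ∪ W (k0 + s) O) s
  have hS0 : S 0 = ∅ := rfl
  have hS1 : ∀ s, S (s + 1) = S s ∪ W (k0 + s) (S s) := fun s => rfl
  have hinv : ∀ s, Inv M G q (k0 + s) (S s) := by
    intro s
    induction s with
    | zero => rw [hS0]; exact inv_empty _ _ _ _
    | succ s ih =>
      rw [hS1]
      exact inv_step (hN _ (Nat.le_add_right _ _)) hq ih (hW _ (Nat.le_add_right _ _) _ ih)
  let Ak : ℕ → Finset ℕ := fun s => W (k0 + s) (S s)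
  have hAk : ∀ s, WC M G f q (Tk (k0 + s)) (k0 + s) (S s) (Ak s) := fun s =>
    hW _ (Nat.le_add_right _ _) _ (hinv s)
  have hsub : ∀ s s', s' < s → Ak s' ⊆ S s := by
    intro s
    induction s with
    | zero => intro s' h; omega
    | succ s ih =>
      intro s' h
      rw [hS1]
      rcases Nat.lt_succ_iff_lt_or_eq.mp h with h | h
      · exact (ih s' h).trans subset_union_left
      · subst h
        exact subset_union_right
  let A : Set ℕ := {a | ∃ s, a ∈ Ak s}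
  have hlow : ∀ a ∈ A, 2 ^ (4 * k0 ^ M + thP M G k0) ≤ a := by
    rintro a ⟨s, hs⟩
    refine le_trans (Nat.pow_le_pow_right (by norm_num) ?_) ((hAk s).rng a hs).1
    exact expo_mono M G (Nat.le_add_right k0 s)
  refine ⟨A, ?_, ?_, ?_⟩
  · intro n hn
    unfold rep
    have : ({p : ℕ × ℕ | p.1 ∈ A ∧ p.2 ∈ A ∧ p.1 + p.2 = n} : Set (ℕ × ℕ)) = ∅ := by
      rw [Set.eq_empty_iff_forall_notMem]
      rintro ⟨a, b⟩ ⟨h1, h2, h3⟩
      have := hlow a h1
      simp only at h3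
      omega
    rw [this, Set.ncard_empty]
  · intro k hk n hn1 hn2
    obtain ⟨s, rfl⟩ := Nat.exists_eq_add_of_le hk
    have H := hAk s
    have hmem : ∀ a ∈ A, a ≤ n → a ∈ S s ∨ a ∈ Ak s := by
      rintro a ⟨s', hs'⟩ han
      have h1 := ((hAk s').rng a hs').1
      have h2 : s' ≤ s := by
        by_contra hcon
        have h3 : 4 * (k0 + s + 1) ^ M + thP M G (k0 + s + 1)
            ≤ 4 * (k0 + s') ^ M + thP M G (k0 + s') :=
          expo_mono M G (show k0 + s + 1 ≤ k0 + s' by omega)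
        have h4 : (2 : ℕ) ^ (4 * (k0 + s + 1) ^ M + thP M G (k0 + s + 1))
            ≤ 2 ^ (4 * (k0 + s') ^ M + thP M G (k0 + s')) :=
          Nat.pow_le_pow_right (by norm_num) h3
        omega
      rcases Nat.lt_or_eq_of_le h2 with h | h
      · exact Or.inl (hsub s s' h hs')
      · subst h
        exact Or.inr hs'
    have hOO : ∀ a ∈ S s, ∀ b ∈ S s, a + b ≠ n := by
      intro a ha b hb hab
      have h1 := (hinv s).bd a ha
      have h2 := (hinv s).bd b hb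
      have hk1 : 1 ≤ (k0 + s) ^ G := by
        have := (hN (k0 + s) (Nat.le_add_right _ _)).lin.k300
        exact Nat.one_le_pow _ _ (by omega)
      have h3 : 4 * (k0 + s) ^ M + 8 * uP M (k0 + s) + 1
          ≤ 4 * (k0 + s) ^ M + thP M G (k0 + s) := by
        unfold thP
        omega
      have h4 : (2 : ℕ) ^ (4 * (k0 + s) ^ M + 8 * uP M (k0 + s) + 1)
          ≤ 2 ^ (4 * (k0 + s) ^ M + thP M G (k0 + s)) := Nat.pow_le_pow_right (by norm_num) h3
      rw [pow_succ] at h4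
      omega
    have hle : rep A n ≤ (((Ak s ×ˢ Ak s).filter (fun p => p.1 + p.2 = n)) ∪
        (((Ak s ×ˢ S s).filter (fun z => z.1 + z.2 = n)) ∪
          ((Ak s ×ˢ S s).filter (fun z => z.1 + z.2 = n)).image Prod.swap)).card := by
      unfold rep
      rw [← Set.ncard_coe_finset]
      refine Set.ncard_le_ncard ?_ (Finset.finite_toSet _)
      rintro ⟨a, b⟩ ⟨h1, h2, h3⟩
      simp only at h1 h2 h3
      have ha := hmem a h1 (by omega)
      have hb := hmem b h2 (by omega)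
      rw [mem_coe, mem_union, mem_union]
      rcases ha with ha | ha <;> rcases hb with hb | hb
      · exact absurd h3 (hOO a ha b hb)
      · right; right
        rw [mem_image]
        refine ⟨(b, a), ?_, rfl⟩
        rw [mem_filter, mem_product]
        exact ⟨⟨hb, ha⟩, by simp only; omega⟩
      · right; left
        rw [mem_filter, mem_product]
        exact ⟨⟨ha, hb⟩, h3⟩
      · left
        rw [mem_filter, mem_product]
        exact ⟨⟨ha, hb⟩, h3⟩
    have h1 := H.self n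
    have h2 := H.cross n
    have h3 : (((Ak s ×ˢ S s).filter (fun z => z.1 + z.2 = n)).image Prod.swap).card
        ≤ 4096 * ((k0 + s) ^ (M - G) * (2 ^ 15 * (k0 + s) ^ 2 + 1)) :=
      card_image_le.trans h2
    have h4 := card_union_le ((Ak s ×ˢ Ak s).filter (fun p => p.1 + p.2 = n))
      (((Ak s ×ˢ S s).filter (fun z => z.1 + z.2 = n)) ∪
          ((Ak s ×ˢ S s).filter (fun z => z.1 + z.2 = n)).image Prod.swap)
    have h5 := card_union_le ((Ak s ×ˢ S s).filter (fun z => z.1 + z.2 = n))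
      (((Ak s ×ˢ S s).filter (fun z => z.1 + z.2 = n)).image Prod.swap)
    unfold repF at h1
    omega
  · intro k hk j hj1 hj2 hcov
    obtain ⟨s, rfl⟩ := Nat.exists_eq_add_of_le hk
    have hc : CovBlock (Ak s : Set ℕ) j := by
      refine (hAk s).cov j hj1 hj2 ?_
      intro i hi n hn1 hn2
      obtain ⟨a, ha, b, hb, hab⟩ := hcov i hi n hn1 hn2
      have hth : (2 : ℕ) ^ (j - 4 * (k0 + s) ^ M - i + 1) ≤ 2 ^ laP M (k0 + s) := by
        refine Nat.pow_le_pow_right (by norm_num) ?_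
        omega
      refine ⟨a, ?_, b, ?_, hab⟩
      · rw [mem_coe, mem_filter, mem_range]
        exact ⟨by omega, ha⟩
      · rw [mem_coe, mem_filter, mem_range]
        exact ⟨by omega, hb⟩
    intro n hn1 hn2
    obtain ⟨a, ha, b, hb, hab⟩ := hc n hn1 hn2
    exact ⟨a, ⟨s, ha⟩, b, ⟨s, hb⟩, hab⟩

end Pool.Agent.Helper30.WR
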